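import Pool.Agent.H6.FN.TargetsG

/-!
# MP_7500ea_al, board fcn_modules: row IM1
-/

open scoped Classical

namespace Pool.Agent.H57.FN

open MulAction FI

open scoped Pointwise in
theorem pf_IM1 : T_IM1 := by
  intro G α _ _ _ h2 x hnp
  have hdt : ∀ {a b c d : α}, a ≠ b → c ≠ d → ∃ g : G, g • a = c ∧ g • b = d :=
    is_two_pretransitive_iff.mp h2
  have hpt : IsPretransitive G α := isPretransitive_of_is_two_pretransitive
  -- the stabilizer is transitive on the other points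
  have htr : IsPretransitive (stabilizer G x) (SubMulAction.ofStabilizer G x) := by
    constructor
    intro a b
    have ha : (a : α) ≠ x := a.2
    have hb : (b : α) ≠ x := b.2
    obtain ⟨g, hg1, hg2⟩ := hdt (Ne.symm ha) (Ne.symm hb)
    refine ⟨⟨g, hg1⟩, ?_⟩
    apply Subtype.ext
    exact hg2
  have hex : ∃ B0 : Set (SubMulAction.ofStabilizer G x), IsBlock (stabilizer G x) B0 ∧
      ¬ B0.Subsingleton ∧ B0 ≠ Set.univ := by
    by_contra h
    push Not at h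
    apply hnp
    exact { exists_smul_eq := htr.exists_smul_eq
            isTrivialBlock_of_isBlock := fun {B} hB => by
              by_cases hs : B.Subsingleton
              · exact Or.inl hs
              · exact Or.inr (h B hB (Set.not_subsingleton_iff.mp hs)) }
  obtain ⟨B0, hB0, hns, hnu⟩ := hex
  obtain ⟨b0, hb0, b1, hb1, hb01⟩ := Set.not_subsingleton_iff.mp hns
  set B : Set α := Subtype.val '' B0 with hBdef
  have hBcard : B.ncard = B0.ncard := Set.ncard_image_of_injective B0 Subtype.val_injective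
  have hBne : ∀ y ∈ B, y ≠ x := by
    rintro y ⟨y', _, rfl⟩
    exact y'.2
  -- the block property
  have hblk : ∀ k : G, k • x = x → ∀ y ∈ B, k • y ∈ B → ∀ z ∈ B, k • z ∈ B := by
    rintro k hk y ⟨y', hy', rfl⟩ ⟨y'', hy'', hyy⟩ z ⟨z', hz', rfl⟩
    have h1 := isBlock_iff_smul_eq_of_nonempty.mp hB0 (g := ⟨k, hk⟩)
      ⟨y'', ⟨y', hy', Subtype.ext (by
        change k • (y' : α) = (y'' : α)
        exact hyy.symm)⟩, hy''⟩
    have h2 : (⟨k, hk⟩ : stabilizer G x) • z' ∈ (⟨k, hk⟩ : stabilizer G x) • B0 :=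
      Set.smul_mem_smul_set hz'
    rw [h1] at h2
    exact ⟨_, h2, rfl⟩
  let R : α → α → α → Prop := fun x' y z =>
    ∃ g : G, g • x = x' ∧ (∃ y0 ∈ B, g • y0 = y) ∧ ∃ z0 ∈ B, g • z0 = z
  have hbx : (b0 : α) ≠ x := b0.2
  have hb0B : (b0 : α) ∈ B := ⟨b0, hb0, rfl⟩
  have hrefl : ∀ x' y, y ≠ x' → R x' y y := by
    intro x' y hy
    obtain ⟨g, hg1, hg2⟩ := hdt (Ne.symm hbx) (Ne.symm hy)
    exact ⟨g, hg1, ⟨b0, hb0B, hg2⟩, ⟨b0, hb0B, hg2⟩⟩
  -- two elements with a common point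
  have hcom : ∀ g g' : G, ∀ x' : α, g • x = x' → g' • x = x' → ∀ y0 ∈ B, ∀ y1 ∈ B,
      g • y0 = g' • y1 → ∀ w ∈ B, ∃ w' ∈ B, g' • w' = g • w := by
    intro g g' x' hg hg' y0 hy0 y1 hy1 he w hw
    refine ⟨(g'⁻¹ * g) • w, ?_, ?_⟩
    · apply hblk (g'⁻¹ * g) _ y0 hy0 _ w hw
      · rw [mul_smul, hg, ← hg', inv_smul_smul]
      · rw [mul_smul, he, inv_smul_smul]
        exact hy1
    · rw [mul_smul, smul_inv_smul]
  refine ⟨R, B.ncard, ?_⟩
  constructor
  · -- ne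
    rintro x' y z ⟨g, hg, ⟨y0, hy0, hy⟩, ⟨z0, hz0, hz⟩⟩
    constructor
    · rw [← hg, ← hy]
      intro h
      exact hBne y0 hy0 (MulAction.injective g h)
    · rw [← hg, ← hz]
      intro h
      exact hBne z0 hz0 (MulAction.injective g h)
  · exact hrefl
  · rintro x' y z ⟨g, hg, hy, hz⟩
    exact ⟨g, hg, hz, hy⟩
  · -- trans
    rintro x' y z w ⟨g, hg, ⟨y0, hy0, hy⟩, ⟨z0, hz0, hz⟩⟩ ⟨g', hg', ⟨z1, hz1, hz'⟩, hw⟩
    obtain ⟨y2, hy2, hy2'⟩ := hcom g g' x' hg hg' z0 hz0 z1 hz1 (hz.trans hz'.symm) y0 hy0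
    exact ⟨g', hg', ⟨y2, hy2, hy2'.trans hy⟩, hw⟩
  · -- inv
    rintro h x' y z ⟨g, hg, ⟨y0, hy0, hy⟩, ⟨z0, hz0, hz⟩⟩
    refine ⟨h * g, ?_, ⟨y0, hy0, ?_⟩, ⟨z0, hz0, ?_⟩⟩
    · rw [mul_smul, hg]
    · rw [mul_smul, hy]
    · rw [mul_smul, hz]
  · -- crd
    intro x' y hy
    obtain ⟨g, hg, ⟨y0, hy0, hyy⟩, -⟩ := hrefl x' y hy
    have hset : {z | R x' y z} = (fun w => g • w) '' B := by
      ext z
      constructor
      · rintro ⟨g', hg', ⟨y1, hy1, hy1'⟩, ⟨z0, hz0, hz⟩⟩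
        obtain ⟨w, hw, hww⟩ := hcom g' g x' hg' hg y1 hy1 y0 hy0 (hy1'.trans hyy.symm) z0 hz0
        exact ⟨w, hw, hww.trans hz⟩
      · rintro ⟨w, hw, rfl⟩
        exact ⟨g, hg, ⟨y0, hy0, hyy⟩, ⟨w, hw, rfl⟩⟩
    rw [hset]
    exact Set.ncard_image_of_injective B (MulAction.injective g)
  · -- two
    rw [hBcard]
    have hsub : ({b0, b1} : Set _) ⊆ B0 := by
      intro z hz
      rcases hz with rfl | hz
      · exact hb0
      · rw [Set.mem_singleton_iff] at hz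
        rw [hz]
        exact hb1
    have := Set.ncard_le_ncard hsub (Set.toFinite _)
    rwa [Set.ncard_pair hb01] at this
  · -- lt
    rw [hBcard]
    have h3 : ¬ Nat.card (SubMulAction.ofStabilizer G x) < B0.ncard * 2 := fun h =>
      hnu (hB0.eq_univ_of_card_lt h)
    have h4 := SubMulAction.nat_card_ofStabilizer_add_one_eq G x
    have hsub : ({b0, b1} : Set _) ⊆ B0 := by
      intro z hz
      rcases hz with rfl | hz
      · exact hb0
      · rw [Set.mem_singleton_iff] at hz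
        rw [hz]
        exact hb1
    have h5 := Set.ncard_le_ncard hsub (Set.toFinite _)
    rw [Set.ncard_pair hb01] at h5
    omega

end Pool.Agent.H57.FN
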