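import Pool.Agent.H6.FN.TargetsG

/-!
# MP_7500ea_al, board fcn_modules: row IM2
-/

open scoped Classical

namespace Pool.Agent.H57.FN

open MulAction FI Finset

lemma ncf_IM2 {α : Type} [Fintype α] (p : α → Prop) :
    {x | p x}.ncard = (Finset.univ.filter p).card := by
  rw [Set.ncard_eq_toFinset_card']
  congr 1
  ext x
  simp

theorem pf_IM2 : T_IM2 := by
  intro G α _ _ _ h2 R b hR
  have hdt : ∀ {a b c d : α}, a ≠ b → c ≠ d → ∃ g : G, g • a = c ∧ g • b = d :=
    is_two_pretransitive_iff.mp h2
  haveI : Fintype α := Fintype.ofFinite α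
  have hn : Nat.card α = Fintype.card α := Nat.card_eq_fintype_card
  have hb2 := hR.two
  have hlt := hR.lt
  rw [hn] at hlt
  -- the numbers c(y, z)
  have hcc : ∀ y z y' z' : α, y ≠ z → y' ≠ z' →
      {x | R x y z}.ncard = {x | R x y' z'}.ncard := by
    intro y z y' z' h h'
    obtain ⟨g, hg1, hg2⟩ := hdt h h'
    have hset : {x | R x y' z'} = (fun w => g • w) '' {x | R x y z} := by
      ext x
      constructor
      · intro hx
        refine ⟨g⁻¹ • x, ?_, smul_inv_smul g x⟩
        have h3 := hR.inv g⁻¹ x y' z' hx
        rw [← hg1, ← hg2, inv_smul_smul, inv_smul_smul] at h3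
        exact h3
      · rintro ⟨w, hw, rfl⟩
        have h3 := hR.inv g w y z hw
        rw [hg1, hg2] at h3
        exact h3
    rw [hset]
    exact (Set.ncard_image_of_injective _ (MulAction.injective g)).symm
  have hcrd : ∀ x y, y ≠ x → (univ.filter (R x y)).card = b := by
    intro x y h
    rw [← hR.crd x y h, ncf_IM2]
  -- double counting
  have hdc : ∀ y z, y ≠ z → {x | R x y z}.ncard + 1 = b := by
    intro y z hyz
    have hdcc := Finset.sum_card_bipartiteAbove_eq_sum_card_bipartiteBelow
      (s := univ.erase y) (t := univ.erase y) (fun x z => R x y z)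
    have hl : ∀ x ∈ univ.erase y,
        ((univ.erase y).bipartiteAbove (fun x z => R x y z) x).card = b - 1 := by
      intro x hx
      have hxy : x ≠ y := (Finset.mem_erase.mp hx).1
      have h1 : (univ.erase y).bipartiteAbove (fun x z => R x y z) x
          = (univ.filter (R x y)).erase y := by
        ext w
        simp only [Finset.mem_bipartiteAbove, Finset.mem_erase, Finset.mem_filter,
          Finset.mem_univ, true_and, and_true]
      rw [h1, Finset.card_erase_of_mem, hcrd x y hxy.symm]
      simp only [Finset.mem_filter, Finset.mem_univ, true_and]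
      exact hR.refl x y hxy.symm
    have hr : ∀ w ∈ univ.erase y,
        ((univ.erase y).bipartiteBelow (fun x z => R x y z) w).card = {x | R x y z}.ncard := by
      intro w hw
      have hwy : w ≠ y := (Finset.mem_erase.mp hw).1
      rw [hcc y z y w hyz hwy.symm, ncf_IM2]
      congr 1
      ext x
      simp only [Finset.mem_bipartiteBelow, Finset.mem_erase, Finset.mem_filter,
        Finset.mem_univ, true_and, and_true]
      constructor
      · exact fun h => h.2
      · exact fun h => ⟨(hR.ne x y w h).1.symm, h⟩
    rw [Finset.sum_congr rfl hl, Finset.sum_congr rfl hr, Finset.sum_const, Finset.sum_const,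
      Finset.card_erase_of_mem (Finset.mem_univ y), Finset.card_univ, smul_eq_mul,
      smul_eq_mul] at hdcc
    have hpos : 0 < Fintype.card α - 1 := by omega
    have := Nat.eq_of_mul_eq_mul_left hpos hdcc
    omega
  -- two classes
  have htwo : ∀ x y : α, y ≠ x → 2 * b + 1 ≤ Fintype.card α := by
    intro x y hxy
    have h1 : ∃ w, w ∉ insert x (univ.filter (R x y)) := by
      by_contra h
      push Not at h
      have h2 : insert x (univ.filter (R x y)) = univ := by
        ext w
        simp only [Finset.mem_univ, iff_true]
        exact h w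
      have h3 := Finset.card_insert_le x (univ.filter (R x y))
      rw [h2, hcrd x y hxy, Finset.card_univ] at h3
      omega
    obtain ⟨w, hw⟩ := h1
    simp only [Finset.mem_insert, Finset.mem_filter, Finset.mem_univ, true_and, not_or] at hw
    have hd1 : Disjoint (univ.filter (R x y)) (univ.filter (R x w)) := by
      rw [Finset.disjoint_left]
      intro v hv hv'
      simp only [Finset.mem_filter, Finset.mem_univ, true_and] at hv hv'
      exact hw.2 (hR.trans x y v w hv (hR.symm x w v hv'))
    have hx : x ∉ univ.filter (R x y) ∪ univ.filter (R x w) := by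
      simp only [Finset.mem_union, Finset.mem_filter, Finset.mem_univ, true_and, not_or]
      exact ⟨fun h => (hR.ne x y x h).2 rfl, fun h => (hR.ne x w x h).2 rfl⟩
    have h4 := Finset.card_le_univ (insert x (univ.filter (R x y) ∪ univ.filter (R x w)))
    rw [Finset.card_insert_of_notMem hx, Finset.card_union_of_disjoint hd1, hcrd x y hxy,
      hcrd x w hw.1] at h4
    omega
  refine ⟨hdc, ?_⟩
  intro y z hyz
  have hc := hdc y z hyz
  have h5 := htwo y z hyz.symm
  rw [hn]
  rw [ncf_IM2] at hc
  obtain ⟨q, hq⟩ : ∃ q : α → Prop, q = fun x => x ≠ y ∧ x ≠ z ∧ ¬ R x y z := ⟨_, rfl⟩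
  have hq' : {x | x ≠ y ∧ x ≠ z ∧ ¬ R x y z} = {x | q x} := by
    rw [hq]
  rw [hq', ncf_IM2]
  have hun : (univ : Finset α) = insert y (insert z (univ.filter (fun x => R x y z) ∪
      univ.filter q)) := by
    ext w
    simp only [Finset.mem_univ, Finset.mem_insert, Finset.mem_union, Finset.mem_filter,
      true_and, true_iff, hq]
    tauto
  have h6 : Fintype.card α ≤ ((univ.filter (fun x => R x y z)).card +
      (univ.filter q).card) + 1 + 1 := by
    rw [← Finset.card_univ]
    conv_lhs => rw [hun]
    refine (Finset.card_insert_le _ _).trans ?_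
    apply Nat.add_le_add_right
    refine (Finset.card_insert_le _ _).trans ?_
    apply Nat.add_le_add_right
    exact Finset.card_union_le _ _
  omega

end Pool.Agent.H57.FN
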