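import Pool.Agent.H6.FN.TargetsG

/-!
# MP_7500ea_al, board fcn_modules: row NAG
-/

open scoped Classical

namespace Pool.Agent.H57.FN

open MulAction FI Finset

lemma cp_NAG (X : Type) [Group X] [Fintype X] :
    (univ.filter (fun p : X × X => Commute p.1 p.2)).card = kc X * Fintype.card X := by
  have h := card_comm_eq_card_conjClasses_mul_card X
  rw [Nat.card_eq_fintype_card (α := X)] at h
  rw [← h, Nat.card_eq_fintype_card, Fintype.card_subtype]

lemma cosetA_NAG {G : Type} [Group G] [Fintype G] (N : Subgroup G) [N.Normal] [Fintype N]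
    (X : G ⧸ N) (g : G) :
    (univ.filter (fun a : G => (a : G ⧸ N) = X ∧ Commute a g)).card ≤
      (univ.filter (fun n : N => Commute (n : G) g)).card := by
  by_cases hne : (univ.filter (fun a : G => (a : G ⧸ N) = X ∧ Commute a g)).Nonempty
  · obtain ⟨a0, ha0⟩ := hne
    simp only [Finset.mem_filter, Finset.mem_univ, true_and] at ha0
    apply Finset.card_le_card_of_injOn
      (fun a => if h : a0⁻¹ * a ∈ N then (⟨a0⁻¹ * a, h⟩ : N) else 1)
    · intro a ha
      simp only [Finset.coe_filter, Finset.mem_univ, true_and, Set.mem_ofPred_eq] at ha ⊢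
      have hm : a0⁻¹ * a ∈ N := QuotientGroup.eq.mp (ha0.1.trans ha.1.symm)
      simp only [dif_pos hm]
      exact (ha0.2.inv_left).mul_left ha.2
    · intro a ha b hb hab
      simp only [Finset.coe_filter, Finset.mem_univ, true_and, Set.mem_ofPred_eq] at ha hb
      have hm : a0⁻¹ * a ∈ N := QuotientGroup.eq.mp (ha0.1.trans ha.1.symm)
      have hm' : a0⁻¹ * b ∈ N := QuotientGroup.eq.mp (ha0.1.trans hb.1.symm)
      simp only [dif_pos hm, dif_pos hm', Subtype.mk.injEq, mul_right_inj] at hab
      exact hab
  · rw [Finset.not_nonempty_iff_eq_empty] at hne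
    rw [hne]
    simp

theorem pf_NAG : T_NAG := by
  intro G _ _ N _
  let _ : Fintype G := Fintype.ofFinite G
  let _ : Fintype N := Fintype.ofFinite N
  let _ : Fintype (G ⧸ N) := Fintype.ofFinite (G ⧸ N)
  -- the fibres
  have hfib : ∀ q : (G ⧸ N) × (G ⧸ N),
      ((univ.filter (fun p : G × G => Commute p.1 p.2)).filter
        (fun p => ((p.1 : G ⧸ N), (p.2 : G ⧸ N)) = q)).card ≤ kc N * Fintype.card N := by
    rintro ⟨X, Y⟩
    rw [← cp_NAG N, Finset.filter_filter, Finset.card_filter, Fintype.sum_prod_type,
      Finset.card_filter, Fintype.sum_prod_type]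
    have h1 : ∀ a : G, (∑ b : G, if Commute (a, b).1 (a, b).2 ∧
        (((a, b).1 : G ⧸ N), ((a, b).2 : G ⧸ N)) = (X, Y) then 1 else 0) ≤
        ∑ n : N, if ((a : G ⧸ N) = X ∧ Commute a (n : G)) then 1 else 0 := by
      intro a
      by_cases haX : (a : G ⧸ N) = X
      · have h2 := cosetA_NAG N Y a
        rw [Finset.card_filter, Finset.card_filter] at h2
        calc (∑ b : G, if Commute (a, b).1 (a, b).2 ∧
              (((a, b).1 : G ⧸ N), ((a, b).2 : G ⧸ N)) = (X, Y) then 1 else 0)
            = ∑ b : G, if ((b : G ⧸ N) = Y ∧ Commute b a) then 1 else 0 := by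
              apply Finset.sum_congr rfl
              intro b _
              congr 1
              simp only [Prod.mk.injEq, haX, true_and, eq_iff_iff]
              constructor
              · exact fun h => ⟨h.2, h.1.symm⟩
              · exact fun h => ⟨h.2.symm, h.1⟩
          _ ≤ ∑ n : N, if Commute (n : G) a then 1 else 0 := h2
          _ = ∑ n : N, if ((a : G ⧸ N) = X ∧ Commute a (n : G)) then 1 else 0 := by
              apply Finset.sum_congr rfl
              intro n _
              congr 1
              simp only [haX, true_and, eq_iff_iff]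
              exact ⟨fun h => h.symm, fun h => h.symm⟩
      · have h3 : ∀ b : G, ¬ (Commute (a, b).1 (a, b).2 ∧
            (((a, b).1 : G ⧸ N), ((a, b).2 : G ⧸ N)) = (X, Y)) := by
          intro b h
          exact haX (Prod.mk.injEq _ _ _ _ ▸ h.2).1
        rw [Finset.sum_eq_zero (fun b _ => if_neg (h3 b))]
        exact Nat.zero_le _
    refine (Finset.sum_le_sum (fun a _ => h1 a)).trans ?_
    rw [Finset.sum_comm]
    apply Finset.sum_le_sum
    intro n _
    have h4 := cosetA_NAG N X (n : G)
    rw [Finset.card_filter, Finset.card_filter] at h4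
    refine h4.trans (le_of_eq ?_)
    apply Finset.sum_congr rfl
    intro m _
    congr 1
    simp only [eq_iff_iff]
    constructor
    · intro h
      have h5 : Commute m n := Subtype.ext h
      exact h5.symm
    · intro h
      have h5 : ((n * m : N) : G) = ((m * n : N) : G) := congrArg _ h
      exact h5.symm
  have hmaps : Set.MapsTo (fun p : G × G => ((p.1 : G ⧸ N), (p.2 : G ⧸ N)))
      ((univ.filter (fun p : G × G => Commute p.1 p.2) : Finset (G × G)) : Set (G × G))
      ((univ.filter (fun q : (G ⧸ N) × (G ⧸ N) => Commute q.1 q.2) :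
        Finset ((G ⧸ N) × (G ⧸ N))) : Set ((G ⧸ N) × (G ⧸ N))) := by
    intro p hp
    simp only [Finset.coe_filter, Finset.mem_univ, true_and, Set.mem_ofPred_eq] at hp ⊢
    exact hp.map (QuotientGroup.mk' N)
  have h6 := Finset.card_eq_sum_card_fiberwise hmaps
  have h7 : kc G * Fintype.card G ≤ (kc (G ⧸ N) * Fintype.card (G ⧸ N)) *
      (kc N * Fintype.card N) := by
    rw [← cp_NAG G, h6, ← cp_NAG (G ⧸ N), ← smul_eq_mul]
    exact Finset.sum_le_card_nsmul _ _ _ (fun q _ => hfib q)
  have h8 : Fintype.card G = Fintype.card (G ⧸ N) * Fintype.card N := by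
    have := Subgroup.card_eq_card_quotient_mul_card_subgroup N
    rwa [Nat.card_eq_fintype_card, Nat.card_eq_fintype_card, Nat.card_eq_fintype_card] at this
  have h9 : 0 < Fintype.card G := Fintype.card_pos
  apply Nat.le_of_mul_le_mul_right _ h9
  calc kc G * Fintype.card G ≤ (kc (G ⧸ N) * Fintype.card (G ⧸ N)) *
      (kc N * Fintype.card N) := h7
    _ = kc N * kc (G ⧸ N) * Fintype.card G := by
      rw [h8]
      ring

end Pool.Agent.H57.FN
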