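import Pool.Agent.H58.FN.Targets

/-!
# Row VAL of the board fnc (MP_6a7a6f_gt): the value for a family of near points
-/

open Topology
open Pool.Agent.H59 Pool.Agent.H48.FR Pool.Agent.H58.FL Pool.Agent.H30.FA Pool.Agent.H58.FM
open Pool.Agent.H58.FN

namespace Pool.Agent.H57.FN

section

variable {E : Type} [NormedAddCommGroup E] [InnerProductSpace ℂ E]

theorem val_inner (a b c : E) (hb : ‖b‖ = 1) :
    inner ℂ (a - inner ℂ b a • b) (c - inner ℂ b c • b) =
      inner ℂ a c - inner ℂ a b * inner ℂ b c := by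
  rw [inner_sub_left, inner_sub_right, inner_sub_right, inner_smul_left, inner_smul_right,
    inner_smul_left, inner_smul_right, inner_self_eq_norm_sq_to_K, hb, inner_conj_symm]
  simp
  ring

theorem val_norm (a b : E) (ha : ‖a‖ = 1) (hb : ‖b‖ = 1) :
    ‖a - inner ℂ b a • b‖ = Real.sqrt (1 - ‖inner ℂ a b‖ ^ 2) := by
  have h := val_inner a b a hb
  have e : inner ℂ a b * inner ℂ b a = (((‖inner ℂ a b‖ ^ 2 : ℝ)) : ℂ) := by
    rw [← inner_conj_symm b a, RCLike.mul_conj]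
    norm_cast
  rw [inner_self_eq_norm_sq_to_K, inner_self_eq_norm_sq_to_K, ha, e] at h
  have h2 : ‖a - inner ℂ b a • b‖ ^ 2 = 1 - ‖inner ℂ a b‖ ^ 2 := by
    have h3 : ((‖a - inner ℂ b a • b‖ ^ 2 : ℝ) : ℂ) = ((1 - ‖inner ℂ a b‖ ^ 2 : ℝ) : ℂ) := by
      push_cast
      push_cast at h
      rw [one_pow] at h
      exact h
    exact_mod_cast h3
  rw [← h2, Real.sqrt_sq (norm_nonneg _)]

/-- the triangle inequality -/
theorem val_tri (a b c : E) (ha : ‖a‖ = 1) (hb : ‖b‖ = 1) (hc : ‖c‖ = 1) :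
    ‖inner ℂ a b‖ * ‖inner ℂ b c‖ -
      Real.sqrt (1 - ‖inner ℂ a b‖ ^ 2) * Real.sqrt (1 - ‖inner ℂ b c‖ ^ 2) ≤
      ‖inner ℂ a c‖ := by
  have h1 := norm_inner_le_norm (𝕜 := ℂ) (a - inner ℂ b a • b) (c - inner ℂ b c • b)
  rw [val_inner a b c hb, val_norm a b ha hb, val_norm c b hc hb, norm_inner_symm c b] at h1
  have h2 := norm_sub_norm_le (inner ℂ a b * inner ℂ b c) (inner ℂ a c : ℂ)
  rw [norm_mul, norm_sub_rev] at h2
  linarith

end

/-- VAL: the value of the power of the phase cochain of a family of points which are near. -/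
theorem pf_VAL (hNMP : T_NMP) (hCHG : T_CHG) (hRPM : T_RPM) : T_VAL := by
  intro n s f hs hs6 hf hfs δ hδ hsd c hc hbd
  obtain ⟨hrp, hcos, -, -, -⟩ := hRPM n
  -- near points
  have hnr : ∀ x y : CPn n, dist x y < δ → 3 / 4 < ‖inner ℂ (rp y) (rp x)‖ ^ 2 := by
    intro x y hxy
    rw [hcos, dist_comm]
    have h0 : 0 ≤ dist x y := dist_nonneg
    have h1 : Real.cos (Real.pi / 6) < Real.cos (dist x y) :=
      Real.cos_lt_cos_of_nonneg_of_le_pi h0 (by linarith [Real.pi_pos]) (by linarith)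
    rw [Real.cos_pi_div_six] at h1
    have h2 : 0 ≤ Real.sqrt 3 / 2 := by positivity
    have h3 : (Real.sqrt 3 / 2) ^ 2 = 3 / 4 := by
      rw [div_pow, Real.sq_sqrt (by norm_num)]; norm_num
    rw [← h3]
    exact pow_lt_pow_left₀ h1 h2 (by norm_num)
  have hnf : ∀ x y : CPn n, dist x y < δ → 3 / 4 < ‖inner ℂ (rp y) (f x)‖ ^ 2 := by
    intro x y hxy
    have ht := val_tri (f x) (rp x) (rp y) (hf x) (hrp x) (hrp y)
    set α : ℝ := Real.arccos ‖inner ℂ (f x) (rp x)‖ with hα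
    have hle : ‖inner ℂ (f x) (rp x)‖ ≤ 1 := by
      have := norm_inner_le_norm (𝕜 := ℂ) (f x) (rp x)
      rw [hf x, hrp x] at this
      linarith
    have hα0 : 0 ≤ α := Real.arccos_nonneg _
    have hαc : Real.cos α = ‖inner ℂ (f x) (rp x)‖ :=
      Real.cos_arccos (by linarith [norm_nonneg (inner ℂ (f x) (rp x) : ℂ)]) hle
    have hαs : α < s := hfs x
    have hβ0 : 0 ≤ dist x y := dist_nonneg
    rw [← hαc, hcos, ← Real.sin_eq_sqrt_one_sub_cos_sq hα0 (by linarith [Real.pi_pos]),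
      ← Real.sin_eq_sqrt_one_sub_cos_sq hβ0 (by linarith [Real.pi_pos]),
      ← Real.cos_add] at ht
    have h1 : Real.cos (Real.pi / 6) < Real.cos (α + dist x y) :=
      Real.cos_lt_cos_of_nonneg_of_le_pi (by linarith) (by linarith [Real.pi_pos])
        (by linarith)
    rw [Real.cos_pi_div_six] at h1
    have h2 : 0 ≤ Real.sqrt 3 / 2 := by positivity
    have h3 : (Real.sqrt 3 / 2) ^ 2 = 3 / 4 := by
      rw [div_pow, Real.sq_sqrt (by norm_num)]; norm_num
    rw [← h3, norm_inner_symm]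
    exact pow_lt_pow_left₀ (lt_of_lt_of_le h1 ht) h2 (by norm_num)
  have hmn : ∀ a b c d p : EuclideanSpace ℂ (Fin (n + 1)), ‖p‖ = 1 → ‖a‖ = 1 → ‖b‖ = 1 →
      ‖c‖ = 1 → ‖d‖ = 1 → 3 / 4 < ‖inner ℂ p a‖ ^ 2 → 3 / 4 < ‖inner ℂ p b‖ ^ 2 →
      3 / 4 < ‖inner ℂ p c‖ ^ 2 → 3 / 4 < ‖inner ℂ p d‖ ^ 2 → mn a b c d = 0 :=
    fun a b c d p hp ha hb hc hd h1 h2 h3 h4 =>
      (hNMP _ p a b c hp ha hb hc h1 h2 h3).2.2.2.2 d hd h4
  have hpi : (2 * Real.pi) ≠ 0 := by positivity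
  refine hCHG (CPn n) (VS n δ) (fun S hS T hT x hx y hy => hS x (hT hx) y (hT hy)) (up f) (ff n)
    (fun x y => (ar (f x) (f y) (rp y) - ar (f x) (rp x) (rp y)) / (2 * Real.pi)) ?_ ?_ ?_
    n c hc hbd
  · intro S hS x hx y hy z hz w hw
    have h := hmn (f x) (f y) (f z) (f w) (rp x) (hrp x) (hf x) (hf y) (hf z) (hf w)
      (hnf x x (hS x hx x hx)) (hnf y x (hS y hy x hx)) (hnf z x (hS z hz x hx))
      (hnf w x (hS w hw x hx))
    unfold mn at h
    unfold d2 up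
    rw [← h]
    ring
  · intro S hS x hx y hy z hz w hw
    have h := hmn (rp x) (rp y) (rp z) (rp w) (rp x) (hrp x) (hrp x) (hrp y) (hrp z) (hrp w)
      (hnr x x (hS x hx x hx)) (hnr y x (hS y hy x hx)) (hnr z x (hS z hz x hx))
      (hnr w x (hS w hw x hx))
    unfold mn at h
    unfold d2 ff
    rw [← h]
    ring
  · intro S hS x hx y hy z hz
    have nz := hnr z z (hS z hz z hz)
    have ny := hnr y z (hS y hy z hz)
    have nx := hnr x z (hS x hx z hz)
    have mz := hnf z z (hS z hz z hz)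
    have my := hnf y z (hS y hy z hz)
    have mx := hnf x z (hS x hx z hz)
    have h1 := hmn (f x) (f y) (f z) (rp z) (rp z) (hrp z) (hf x) (hf y) (hf z) (hrp z)
      mx my mz nz
    have h2 := hmn (f x) (f y) (rp y) (rp z) (rp z) (hrp z) (hf x) (hf y) (hrp y) (hrp z)
      mx my ny nz
    have h3 := hmn (f x) (rp x) (rp y) (rp z) (rp z) (hrp z) (hf x) (hrp x) (hrp y) (hrp z)
      mx nx ny nz
    unfold mn at h1 h2 h3
    unfold d1 up ff
    beta_reduce
    have k1 := (div_eq_zero_iff.mp h1).resolve_right hpi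
    have k2 := (div_eq_zero_iff.mp h2).resolve_right hpi
    have k3 := (div_eq_zero_iff.mp h3).resolve_right hpi
    rw [← sub_div, ← sub_div, ← add_div]
    congr 1
    linarith

end Pool.Agent.H57.FN
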